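import Pool.Agent.Helper76.TC2.Goals

/-!
# Project TC2 (MP_ccd65d_gt), packet WS
-/

set_option autoImplicit false

open Set

namespace Pool.Agent.Helper71.TC2.WS

open Pool.Agent.Helper76.TC2

/-- telescoping for a monotone function -/
lemma tele (φ : ℝ → ℝ) (M : ℕ) (hM : 0 < M) (h : MonotoneOn φ (Icc 0 1)) :
    ∑ i ∈ Finset.range M, |φ ((i : ℝ) / M) - φ (((i + 1 : ℕ) : ℝ) / M)| = φ 1 - φ 0 := by
  have hM' : (0 : ℝ) < M := by exact_mod_cast hM
  have h1 : ∀ i ∈ Finset.range M, |φ ((i : ℝ) / M) - φ (((i + 1 : ℕ) : ℝ) / M)| =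
      φ (((i + 1 : ℕ) : ℝ) / M) - φ ((i : ℝ) / M) := by
    intro i hi
    have hi' : i + 1 ≤ M := Finset.mem_range.1 hi
    have hi2 : ((i + 1 : ℕ) : ℝ) ≤ M := by exact_mod_cast hi'
    have h0 : (0 : ℝ) ≤ (i : ℝ) := Nat.cast_nonneg i
    have h01 : (i : ℝ) ≤ ((i + 1 : ℕ) : ℝ) := by exact_mod_cast Nat.le_succ i
    have hle : φ ((i : ℝ) / M) ≤ φ (((i + 1 : ℕ) : ℝ) / M) := by
      apply h
      · exact ⟨by positivity, by rw [div_le_one hM']; linarith⟩
      · exact ⟨by positivity, by rw [div_le_one hM']; linarith⟩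
      · exact div_le_div_of_nonneg_right h01 hM'.le
    rw [abs_sub_comm, abs_of_nonneg (by linarith)]
  rw [Finset.sum_congr rfl h1, Finset.sum_range_sub (fun i : ℕ => φ ((i : ℝ) / M))]
  have e1 : ((M : ℕ) : ℝ) / M = 1 := div_self hM'.ne'
  rw [e1]
  simp

theorem t : S_WS := by
  intro n f x y hf η hη
  obtain ⟨M, hM0, hM⟩ : ∃ M : ℕ, 0 < M ∧ ‖y - x‖ / M ≤ η := by
    refine ⟨⌈‖y - x‖ / η⌉₊ + 1, Nat.succ_pos _, ?_⟩
    have h1 : ‖y - x‖ / η ≤ ((⌈‖y - x‖ / η⌉₊ + 1 : ℕ) : ℝ) := by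
      push_cast
      have := Nat.le_ceil (‖y - x‖ / η)
      linarith
    rw [div_le_iff₀ hη] at h1
    rw [div_le_iff₀ (by positivity)]
    linarith
  have hM' : (0 : ℝ) < M := by exact_mod_cast hM0
  have hstep : ∀ i : ℕ, ‖(x + ((i : ℝ) / M) • (y - x)) -
      (x + (((i + 1 : ℕ) : ℝ) / M) • (y - x))‖ = ‖y - x‖ / M := by
    intro i
    have : (x + ((i : ℝ) / M) • (y - x)) - (x + (((i + 1 : ℕ) : ℝ) / M) • (y - x)) =
        (-(1 / (M : ℝ))) • (y - x) := by
      rw [add_sub_add_left_eq_sub, ← sub_smul]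
      congr 1
      push_cast
      ring
    rw [this, norm_smul, norm_neg, Real.norm_eq_abs, abs_of_pos (by positivity)]
    ring
  refine ⟨M, fun i => x + ((i : ℝ) / M) • (y - x), by simp, ?_, fun i _ => ?_, ?_, ?_⟩
  · show x + ((M : ℝ) / M) • (y - x) = y
    rw [div_self hM'.ne', one_smul]
    abel
  · exact (hstep i).le.trans hM
  · have : ∑ i ∈ Finset.range M, ‖(x + ((i : ℝ) / M) • (y - x)) -
        (x + (((i + 1 : ℕ) : ℝ) / M) • (y - x))‖ = ‖x - y‖ := by
      rw [Finset.sum_congr rfl fun i _ => hstep i, Finset.sum_const, Finset.card_range,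
        nsmul_eq_mul, mul_div_cancel₀ _ hM'.ne', norm_sub_rev]
    exact this.le
  · set φ : ℝ → ℝ := fun t => f (x + t • (y - x)) with hφ
    have e1 : φ 1 = f y := by
      simp only [hφ, one_smul]
      congr 1
      abel
    have e0 : φ 0 = f x := by
      simp only [hφ, zero_smul, add_zero]
    show ∑ i ∈ Finset.range M, |φ ((i : ℝ) / M) - φ (((i + 1 : ℕ) : ℝ) / M)| ≤ |f x - f y|
    rcases hf with hf | hf
    · rw [tele φ M hM0 hf, e1, e0, abs_sub_comm]
      exact le_abs_self _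
    · have h2 : MonotoneOn (fun t => - φ t) (Icc 0 1) := hf.neg
      have h3 := tele (fun t => - φ t) M hM0 h2
      have h4 : ∑ i ∈ Finset.range M, |φ ((i : ℝ) / M) - φ (((i + 1 : ℕ) : ℝ) / M)| =
          ∑ i ∈ Finset.range M, |(- φ ((i : ℝ) / M)) - (- φ (((i + 1 : ℕ) : ℝ) / M))| := by
        refine Finset.sum_congr rfl fun i _ => ?_
        rw [← abs_neg]
        congr 1
        ring
      rw [h4, h3, e1, e0]
      have : - f y - - f x = f x - f y := by ring
      rw [this]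
      exact le_abs_self _

end Pool.Agent.Helper71.TC2.WS
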